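import Mathlib

/-!
# Two disjoint paths

A small Menger-type lemma: if no single vertex separates `{u, v}` from `T`, then there are two
disjoint paths, one from `u` and one from `v`, both ending in `T`.
-/

set_option autoImplicit false

namespace Pool.Agent.NashP

variable {V : Type*}

/-- `l` is a path of `R` without repeated vertices from `a` to `b`. -/
def Pth (R : V → V → Prop) (a b : V) (l : List V) : Prop :=
  l.Nodup ∧ l.IsChain R ∧ l.head? = some a ∧ l.getLast? = some b

theorem first_split {p : V → Prop} {l : List V} (h : ∃ x ∈ l, p x) :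
    ∃ l1 x l2, l = l1 ++ x :: l2 ∧ p x ∧ ∀ z ∈ l1, ¬ p z := by
  induction l with
  | nil =>
    obtain ⟨x, hx, _⟩ := h
    simp at hx
  | cons a l ih =>
    by_cases ha : p a
    · exact ⟨[], a, l, by simp, ha, by simp⟩
    · obtain ⟨x, hx, hpx⟩ := h
      have hx' : x ∈ l := by
        rcases List.mem_cons.1 hx with rfl | hx
        · exact absurd hpx ha
        · exact hx
      obtain ⟨l1, y, l2, h1, h2, h3⟩ := ih ⟨x, hx', hpx⟩
      refine ⟨a :: l1, y, l2, by simp [h1], h2, ?_⟩
      intro z hz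
      rcases List.mem_cons.1 hz with rfl | hz
      · exact ha
      · exact h3 z hz

theorem last_split {p : V → Prop} {l : List V} (h : ∃ x ∈ l, p x) :
    ∃ l1 x l2, l = l1 ++ x :: l2 ∧ p x ∧ ∀ z ∈ l2, ¬ p z := by
  induction l with
  | nil =>
    obtain ⟨x, hx, _⟩ := h
    simp at hx
  | cons a l ih =>
    by_cases hl : ∃ x ∈ l, p x
    · obtain ⟨l1, y, l2, h1, h2, h3⟩ := ih hl
      exact ⟨a :: l1, y, l2, by simp [h1], h2, h3⟩
    · obtain ⟨x, hx, hpx⟩ := h
      rcases List.mem_cons.1 hx with rfl | hx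
      · exact ⟨[], x, l, by simp, hpx, fun z hz hpz => hl ⟨z, hz, hpz⟩⟩
      · exact absurd ⟨x, hx, hpx⟩ hl

variable {R : V → V → Prop}

theorem Pth.refl (a : V) : Pth R a a [a] := by
  simp [Pth]

theorem Pth.left {a b x : V} {l1 l2 : List V} (h : Pth R a b (l1 ++ x :: l2)) :
    Pth R a x (l1 ++ [x]) := by
  obtain ⟨h1, h2, h3, h4⟩ := h
  have he : l1 ++ x :: l2 = (l1 ++ [x]) ++ l2 := by simp
  rw [he] at h1 h2
  refine ⟨(List.nodup_append.1 h1).1, (List.isChain_append.1 h2).1, ?_, by simp⟩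
  cases l1 with
  | nil => simpa using h3
  | cons c l => simpa using h3

theorem Pth.right {a b x : V} {l1 l2 : List V} (h : Pth R a b (l1 ++ x :: l2)) :
    Pth R x b (x :: l2) := by
  obtain ⟨h1, h2, h3, h4⟩ := h
  refine ⟨(List.nodup_append.1 h1).2.1, (List.isChain_append.1 h2).2.1, by simp, ?_⟩
  rw [List.getLast?_append] at h4
  simpa [List.getLast?_cons] using h4

theorem Pth.glue {a b x : V} {l1 l2 : List V} (h : Pth R a x (l1 ++ [x]))
    (h' : Pth R x b (x :: l2)) (hd : ∀ z ∈ l1, z ∉ l2) : Pth R a b (l1 ++ x :: l2) := by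
  obtain ⟨h1, h2, h3, h4⟩ := h
  obtain ⟨g1, g2, g3, g4⟩ := h'
  refine ⟨?_, ?_, ?_, ?_⟩
  · rw [List.nodup_append] at h1 ⊢
    refine ⟨h1.1, g1, ?_⟩
    intro z hz w hw hzw
    subst hzw
    rcases List.mem_cons.1 hw with rfl | hw
    · exact h1.2.2 z hz z (by simp) rfl
    · exact hd z hz hw
  · rw [List.isChain_append] at h2 ⊢
    refine ⟨h2.1, g2, ?_⟩
    intro p hp q hq
    exact h2.2.2 p hp q (by simpa using hq)
  · cases l1 with
    | nil => simpa using h3
    | cons c l => simpa using h3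
  · rw [List.getLast?_append]
    rw [g4]
    simp

theorem Pth.head_mem {a b : V} {l : List V} (h : Pth R a b l) : a ∈ l :=
  List.mem_of_mem_head? h.2.2.1

theorem Pth.last_mem {a b : V} {l : List V} (h : Pth R a b l) : b ∈ l :=
  List.mem_of_mem_getLast? h.2.2.2

theorem Pth.notMem {a b x : V} {l1 l2 : List V} (h : Pth R a b (l1 ++ x :: l2)) :
    x ∉ l1 ∧ x ∉ l2 ∧ ∀ z ∈ l1, z ∉ l2 := by
  have h1 := h.1
  rw [List.nodup_append, List.nodup_cons] at h1
  refine ⟨fun hx => h1.2.2 x hx x (by simp) rfl, h1.2.1.1, fun z hz hz' =>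
    h1.2.2 z hz z (by simp [hz']) rfl⟩

/-- Concatenation of two disjoint paths joined by an arc. -/
theorem Pth.append {a b c d : V} {l1 l2 : List V} (h : Pth R a b l1) (h' : Pth R c d l2)
    (hbc : R b c) (hd : ∀ z ∈ l1, z ∉ l2) : Pth R a d (l1 ++ l2) := by
  obtain ⟨h1, h2, h3, h4⟩ := h
  obtain ⟨g1, g2, g3, g4⟩ := h'
  refine ⟨?_, ?_, ?_, ?_⟩
  · rw [List.nodup_append]
    refine ⟨h1, g1, ?_⟩
    intro z hz w hw hzw
    subst hzw
    exact hd z hz hw
  · rw [List.isChain_append]
    refine ⟨h2, g2, ?_⟩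
    intro p hp q hq
    rw [h4] at hp
    rw [g3] at hq
    simp only [Option.mem_def, Option.some.injEq] at hp hq
    subst hp
    subst hq
    exact hbc
  · rw [List.head?_append, h3]
    simp
  · rw [List.getLast?_append, g4]
    simp

/-- The hypothesis of the two paths lemma. -/
def NoSep (R : V → V → Prop) (u v : V) (T : V → Prop) : Prop :=
  ∀ s, ∃ a, (a = u ∨ a = v) ∧ ∃ t, T t ∧ ∃ l, Pth R a t l ∧ s ∉ l

/-- Two disjoint paths from `u` and from `v` into `T`. -/
def TwoPaths (R : V → V → Prop) (u v : V) (T : V → Prop) : Prop :=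
  ∃ e f P Q, T e ∧ T f ∧ Pth R u e P ∧ Pth R v f Q ∧ ∀ z ∈ P, z ∉ Q

theorem split_left {a b x p : V} {P5 P6 P2 : List V}
    (h : Pth R a b ((P5 ++ x :: P6) ++ p :: P2)) : Pth R a x (P5 ++ [x]) := by
  have : (P5 ++ x :: P6) ++ p :: P2 = P5 ++ x :: (P6 ++ p :: P2) := by simp
  rw [this] at h
  exact h.left

/-- Case: the detour starts on `P1` and ends on `P2`. -/
theorem case_PP {u v p t x y : V} {P5 P6 P3 P4 Q1 W2 : List V}
    (hP : Pth R u t ((P5 ++ x :: P6) ++ p :: (P3 ++ y :: P4))) (hQ : Pth R v p (Q1 ++ [p]))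
    (hd : ∀ z ∈ Q1, z ∉ (P5 ++ x :: P6) ++ p :: (P3 ++ y :: P4))
    (hxy : Pth R x y (x :: (W2 ++ [y])))
    (hW2 : ∀ z ∈ W2, z ∉ P5 ++ x :: P6 ∧ z ∉ Q1 ∧ z ≠ p ∧ z ∉ P3 ++ y :: P4) :
    Pth R u t ((P5 ++ x :: W2) ++ y :: P4) ∧ Pth R v y ((Q1 ++ p :: P3) ++ [y]) ∧
      ∀ z ∈ Q1 ++ p :: P3, z ∉ (P5 ++ x :: W2) ++ y :: P4 := by
  have hPn := hP.notMem
  have hnd : Pth R u t (((P5 ++ x :: P6) ++ p :: P3) ++ y :: P4) := by simpa using hP
  have hnd' := hnd.notMem
  have hPp : Pth R p t ((p :: P3) ++ y :: P4) := by simpa using hP.right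
  simp only [List.mem_append, List.mem_cons, List.not_mem_nil, or_false, not_or] at *
  refine ⟨?_, ?_, ?_⟩
  · have h5 := split_left hP
    have h6 : Pth R u y (P5 ++ x :: (W2 ++ [y])) := by
      refine h5.glue hxy ?_
      intro z hz hz'
      rw [List.mem_append, List.mem_singleton] at hz'
      rcases hz' with hz' | rfl
      · exact (hW2 z hz').1.1 hz
      · exact hnd'.1.1.1 hz
    refine Pth.glue (by simpa using h6) hnd.right ?_
    intro z hz hz'
    rw [List.mem_append, List.mem_cons] at hz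
    rcases hz with hz | rfl | hz
    · exact hnd'.2.2 z (by tauto) hz'
    · exact hnd'.2.2 z (by tauto) hz'
    · exact (hW2 z hz).2.2.2.2.2 hz'
  · have h8 : Pth R p y (p :: (P3 ++ [y])) := by simpa using hPp.left
    have h10 := hQ.glue h8 (by
      intro z hz hz'
      rw [List.mem_append, List.mem_singleton] at hz'
      have := hd z hz
      tauto)
    simpa using h10
  · intro z hz
    rcases hz with hz | rfl | hz
    · have hzd := hd z hz
      refine ⟨⟨by tauto, by tauto, fun h => (hW2 z h).2.1 hz⟩, by tauto, by tauto⟩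
    · refine ⟨⟨by tauto, by tauto, fun h => (hW2 z h).2.2.1 rfl⟩, by tauto, by tauto⟩
    · refine ⟨⟨fun h => ?_, fun h => ?_, fun h => ?_⟩, fun h => ?_, fun h => ?_⟩
      · exact (hPn.2.2 z (Or.inl h)).1 hz
      · exact (hPn.2.2 z (Or.inr (Or.inl h))).1 hz
      · exact (hW2 z h).2.2.2.1 hz
      · rw [h] at hz
        tauto
      · exact hnd'.2.2 z (by tauto) h

/-- Case: the detour starts on `Q1` and ends on `P2`. -/
theorem case_QP {u v p t x y : V} {P1 P3 P4 Q5 Q6 W2 : List V}
    (hP : Pth R u t (P1 ++ p :: (P3 ++ y :: P4)))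
    (hQ : Pth R v p ((Q5 ++ x :: Q6) ++ [p]))
    (hd : ∀ z ∈ Q5 ++ x :: Q6, z ∉ P1 ++ p :: (P3 ++ y :: P4))
    (hxy : Pth R x y (x :: (W2 ++ [y])))
    (hyQ : y ∉ Q5 ++ x :: Q6)
    (hW2 : ∀ z ∈ W2, z ∉ P1 ∧ z ∉ Q5 ++ x :: Q6 ∧ z ≠ p ∧ z ∉ P3 ++ y :: P4) :
    Pth R u t ((P1 ++ p :: P3) ++ y :: P4) ∧ Pth R v y ((Q5 ++ x :: W2) ++ [y]) ∧
      ∀ z ∈ Q5 ++ x :: W2, z ∉ (P1 ++ p :: P3) ++ y :: P4 := by
  have hnd : Pth R u t ((P1 ++ p :: P3) ++ y :: P4) := by simpa using hP
  simp only [List.mem_append, List.mem_cons, List.not_mem_nil, or_false, not_or] at *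
  refine ⟨hnd, ?_, ?_⟩
  · have h5 := split_left hQ
    have h6 : Pth R v y (Q5 ++ x :: (W2 ++ [y])) := by
      refine h5.glue hxy ?_
      intro z hz hz'
      rw [List.mem_append, List.mem_singleton] at hz'
      rcases hz' with hz' | rfl
      · exact (hW2 z hz').2.1.1 hz
      · exact hyQ.1 hz
    simpa using h6
  · intro z hz
    rcases hz with hz | hz | hz
    · have hzd := hd z (Or.inl hz)
      tauto
    · have hzd := hd z (Or.inr (Or.inl hz))
      tauto
    · have := hW2 z hz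
      tauto

/-- Case: the detour starts on `P1` and ends at a new vertex of `T`. -/
theorem case_PT {u v p t x y : V} {P5 P6 P2 Q1 W2 : List V}
    (hP : Pth R u t ((P5 ++ x :: P6) ++ p :: P2)) (hQ : Pth R v p (Q1 ++ [p]))
    (hd : ∀ z ∈ Q1, z ∉ (P5 ++ x :: P6) ++ p :: P2)
    (hxy : Pth R x y (x :: (W2 ++ [y])))
    (hy : y ∉ P5 ++ x :: P6 ∧ y ∉ Q1 ∧ y ≠ p ∧ y ∉ P2)
    (hW2 : ∀ z ∈ W2, z ∉ P5 ++ x :: P6 ∧ z ∉ Q1 ∧ z ≠ p ∧ z ∉ P2) :
    Pth R u y (P5 ++ x :: (W2 ++ [y])) ∧ Pth R v t (Q1 ++ p :: P2) ∧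
      ∀ z ∈ P5 ++ x :: (W2 ++ [y]), z ∉ Q1 ++ p :: P2 := by
  have hPn := hP.notMem
  simp only [List.mem_append, List.mem_cons, List.not_mem_nil, or_false, not_or] at *
  refine ⟨?_, hQ.glue hP.right ?_, ?_⟩
  · have h5 := split_left hP
    refine h5.glue hxy ?_
    intro z hz hz'
    rw [List.mem_append, List.mem_singleton] at hz'
    rcases hz' with hz' | rfl
    · exact (hW2 z hz').1.1 hz
    · exact hy.1.1 hz
  · intro z hz hz'
    exact (hd z hz).2.2 hz'
  · intro z hz
    rcases hz with hz | hz | hz | hz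
    · refine ⟨fun h => (hd z h).1.1 hz, fun h => ?_, fun h => hPn.2.2 z (Or.inl hz) h⟩
      rw [h] at hz
      tauto
    · refine ⟨fun h => (hd z h).1.2.1 hz, fun h => ?_, fun h => hPn.2.2 z (by tauto) h⟩
      rw [h] at hz
      tauto
    · have := hW2 z hz
      tauto
    · rw [hz]
      tauto

/-- Case: the detour starts on `Q1` and ends at a new vertex of `T`. -/
theorem case_QT {u v p t x y : V} {P1 P2 Q5 Q6 W2 : List V}
    (hP : Pth R u t (P1 ++ p :: P2)) (hQ : Pth R v p ((Q5 ++ x :: Q6) ++ [p]))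
    (hd : ∀ z ∈ Q5 ++ x :: Q6, z ∉ P1 ++ p :: P2)
    (hxy : Pth R x y (x :: (W2 ++ [y])))
    (hy : y ∉ P1 ∧ y ∉ Q5 ++ x :: Q6 ∧ y ≠ p ∧ y ∉ P2)
    (hW2 : ∀ z ∈ W2, z ∉ P1 ∧ z ∉ Q5 ++ x :: Q6 ∧ z ≠ p ∧ z ∉ P2) :
    Pth R u t (P1 ++ p :: P2) ∧ Pth R v y (Q5 ++ x :: (W2 ++ [y])) ∧
      ∀ z ∈ P1 ++ p :: P2, z ∉ Q5 ++ x :: (W2 ++ [y]) := by
  simp only [List.mem_append, List.mem_cons, List.not_mem_nil, or_false, not_or] at *
  refine ⟨hP, ?_, ?_⟩
  · have h5 := split_left hQ
    refine h5.glue hxy ?_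
    intro z hz hz'
    rw [List.mem_append, List.mem_singleton] at hz'
    rcases hz' with hz' | rfl
    · exact (hW2 z hz').2.1.1 hz
    · exact hy.2.1.1 hz
  · intro z hz
    refine ⟨fun h => ?_, fun h => ?_, fun h => ?_, fun h => ?_⟩
    · have := hd z (Or.inl h)
      tauto
    · have := hd z (Or.inr (Or.inl h))
      tauto
    · have := hW2 z h
      tauto
    · rw [h] at hz
      tauto

theorem two_paths_step {u v : V} {T : V → Prop} (H : NoSep R u v T) :
    ∀ (n : ℕ) (P1 P2 Q1 : List V) (p t : V), P2.length < n → T t →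
      Pth R u t (P1 ++ p :: P2) → Pth R v p (Q1 ++ [p]) → (∀ z ∈ Q1, z ∉ P1 ++ p :: P2) →
      TwoPaths R u v T := by
  intro n
  induction n with
  | zero => intro P1 P2 Q1 p t h; omega
  | succ n ih =>
    intro P1 P2 Q1 p t hn hT hP hQ hd
    obtain ⟨a, ha, t', hT', W, hW, hpW⟩ := H p
    have haW := hW.head_mem
    have haPQ : a ∈ P1 ∨ a ∈ Q1 := by
      have hap : a ≠ p := by
        rintro rfl
        exact hpW haW
      rcases ha with rfl | rfl
      · left
        have h3 := hP.2.2.1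
        cases P1 with
        | nil =>
          simp only [List.nil_append, List.head?_cons, Option.some.injEq] at h3
          exact absurd h3.symm hap
        | cons c l =>
          simp only [List.cons_append, List.head?_cons, Option.some.injEq] at h3
          simp [h3]
      · right
        have h3 := hQ.2.2.1
        cases Q1 with
        | nil =>
          simp only [List.nil_append, List.head?_cons, Option.some.injEq] at h3
          exact absurd h3.symm hap
        | cons c l =>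
          simp only [List.cons_append, List.head?_cons, Option.some.injEq] at h3
          simp [h3]
    obtain ⟨W1, x, W', hWe, hx, hxl⟩ := last_split (p := fun z => z ∈ P1 ∨ z ∈ Q1)
      ⟨a, haW, haPQ⟩
    rw [hWe] at hW hpW
    have hWx := hW.right
    have hpx : p ≠ x := by
      rintro rfl
      exact hpW (by simp)
    have hpW' : p ∉ W' := fun hh => hpW (by simp [hh])
    have hPn := hP.notMem
    have hxW' : x ∉ W' := hW.notMem.2.1
    by_cases hW' : W' = []
    · -- x is the last vertex of W, and lies in T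
      subst hW'
      have hxt : x = t' := by
        have := hWx.2.2.2
        simpa using this
      rw [← hxt] at hT'
      rcases hx with hx | hx
      · obtain ⟨P5, P6, rfl⟩ := List.append_of_mem hx
        refine ⟨x, t, P5 ++ [x], Q1 ++ p :: P2, hT', hT, split_left hP, hQ.glue hP.right ?_, ?_⟩
        · intro z hz hz'
          exact hd z hz (by simp [hz'])
        · intro z hz hz'
          have hz1 : z ∈ P5 ++ x :: P6 := by
            rw [List.mem_append, List.mem_singleton] at hz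
            rw [List.mem_append, List.mem_cons]
            rcases hz with hz | hz
            · exact Or.inl hz
            · exact Or.inr (Or.inl hz)
          rw [List.mem_append, List.mem_cons] at hz'
          rcases hz' with hz' | rfl | hz'
          · exact hd z hz' (by rw [List.mem_append]; exact Or.inl hz1)
          · exact hPn.1 hz1
          · exact hPn.2.2 z hz1 hz'
      · obtain ⟨Q5, Q6, rfl⟩ := List.append_of_mem hx
        refine ⟨t, x, P1 ++ p :: P2, Q5 ++ [x], hT, hT', hP, split_left hQ, ?_⟩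
        intro z hz hz'
        refine hd z ?_ hz
        rw [List.mem_append, List.mem_singleton] at hz'
        rw [List.mem_append, List.mem_cons]
        rcases hz' with hz' | hz'
        · exact Or.inl hz'
        · exact Or.inr (Or.inl hz')
    · have ht'W' : t' ∈ W' := by
        have h4 := hWx.2.2.2
        obtain ⟨c, l, rfl⟩ := List.exists_cons_of_ne_nil hW'
        rw [List.getLast?_cons_cons] at h4
        exact List.mem_of_mem_getLast? h4
      obtain ⟨W2, y, W3, hWe', hy, hyf⟩ := first_split (p := fun z => z ∈ P2 ∨ T z)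
        ⟨t', ht'W', Or.inr hT'⟩
      rw [hWe'] at hWx hpW' hxl hxW'
      have hxy : Pth R x y (x :: (W2 ++ [y])) := by
        have : x :: (W2 ++ y :: W3) = (x :: W2) ++ y :: W3 := by simp
        rw [this] at hWx
        simpa using hWx.left
      have hyPQ : y ∉ P1 ∧ y ∉ Q1 := by
        have := hxl y (by simp)
        exact ⟨fun h => this (Or.inl h), fun h => this (Or.inr h)⟩
      have hyp : y ≠ p := by
        rintro rfl
        exact hpW' (by simp)
      have hW2 : ∀ z ∈ W2, z ∉ P1 ∧ z ∉ Q1 ∧ z ≠ p ∧ z ∉ P2 := by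
        intro z hz
        have h1 := hxl z (by simp [hz])
        have h2 := hyf z hz
        refine ⟨fun h => h1 (Or.inl h), fun h => h1 (Or.inr h), ?_, fun h => h2 (Or.inl h)⟩
        rintro rfl
        exact hpW' (by simp [hz])
      by_cases hyP2 : y ∈ P2
      · -- shorter tail
        obtain ⟨P3, P4, rfl⟩ := List.append_of_mem hyP2
        have hlen : P4.length < n := by
          simp only [List.length_append, List.length_cons] at hn
          omega
        rcases hx with hx | hx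
        · obtain ⟨P5, P6, rfl⟩ := List.append_of_mem hx
          obtain ⟨h1, h2, h3⟩ := case_PP hP hQ hd hxy hW2
          exact ih _ P4 _ y t hlen hT h1 h2 h3
        · obtain ⟨Q5, Q6, rfl⟩ := List.append_of_mem hx
          obtain ⟨h1, h2, h3⟩ := case_QP hP hQ hd hxy hyPQ.2 hW2
          exact ih _ P4 _ y t hlen hT h1 h2 h3
      · have hTy : T y := by
          rcases hy with hy | hy
          · exact absurd hy hyP2
          · exact hy
        rcases hx with hx | hx
        · obtain ⟨P5, P6, rfl⟩ := List.append_of_mem hx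
          obtain ⟨h1, h2, h3⟩ := case_PT hP hQ hd hxy ⟨hyPQ.1, hyPQ.2, hyp, hyP2⟩ hW2
          exact ⟨y, t, _, _, hTy, hT, h1, h2, h3⟩
        · obtain ⟨Q5, Q6, rfl⟩ := List.append_of_mem hx
          obtain ⟨h1, h2, h3⟩ := case_QT hP hQ hd hxy ⟨hyPQ.1, hyPQ.2, hyp, hyP2⟩ hW2
          exact ⟨t, y, _, _, hT, hTy, h1, h2, h3⟩

/-- **Two disjoint paths.**  If no vertex separates `{u, v}` from `T`, there are disjoint paths
from `u` and from `v` into `T`. -/
theorem two_paths {u v : V} (huv : u ≠ v) {T : V → Prop} (H : NoSep R u v T) :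
    TwoPaths R u v T := by
  obtain ⟨a, ha, t, hT, P, hP, hvP⟩ := H v
  have hau : a = u := by
    rcases ha with ha | ha
    · exact ha
    · rw [ha] at hP
      exact absurd hP.head_mem hvP
  subst hau
  obtain ⟨b, hb, t', hT', W, hW, huW⟩ := H a
  have hbv : b = v := by
    rcases hb with hb | hb
    · rw [hb] at hW
      exact absurd hW.head_mem huW
    · exact hb
  subst hbv
  by_cases hd : ∃ z ∈ W, z ∈ P
  · obtain ⟨Q1, p, W', hWe, hp, hpf⟩ := first_split hd
    rw [hWe] at hW
    obtain ⟨P1, P2, rfl⟩ := List.append_of_mem hp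
    exact two_paths_step H (P2.length + 1) P1 P2 Q1 p t (Nat.lt_succ_self _) hT hP hW.left hpf
  · exact ⟨t, t', P, W, hT, hT', hP, hW, fun z hz hz' => hd ⟨z, hz', hz⟩⟩

end Pool.Agent.NashP
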