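import Mathlib

/-!
# One marked vertex: the strict path lemma

A digraph on a finite set `S`, required rows `X`, required columns `K`.  If for every `t ≥ 1`
fewer than `t` required rows have degree at most `t`, and the same for the columns, then every
vertex `v` lies on a path starting outside `K` and ending outside `X`.
-/

set_option autoImplicit false

namespace Pool.Agent.NashP

open Finset

variable {V : Type*} [DecidableEq V]

/-- Strictness: fewer than `t` members of `X` have value at most `t`. -/
def Str (X : Finset V) (ρ : V → ℕ) : Prop :=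
  ∀ t, 1 ≤ t → (X.filter (fun y => ρ y ≤ t)).card < t

open Classical in
/-- Row degree inside `S`. -/
noncomputable def rd (R : V → V → Prop) (S : Finset V) (x : V) : ℕ :=
  (S.filter (fun y => y ≠ x ∧ R x y)).card

/-- The reversed relation. -/
def fl (R : V → V → Prop) : V → V → Prop := fun a b => R b a

/-- A path inside `S` starting outside `K`, ending outside `X`, through `v`. -/
def Good (R : V → V → Prop) (S X K : Finset V) (v : V) : Prop :=
  ∃ l : List V, l.Nodup ∧ l.IsChain R ∧ (∀ a ∈ l, a ∈ S) ∧ v ∈ l ∧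
    (∀ b ∈ l.head?, b ∉ K) ∧ (∀ a ∈ l.getLast?, a ∉ X)

theorem Good.fl {R : V → V → Prop} {S X K : Finset V} {v : V} (h : Good R S X K v) :
    Good (fl R) S K X v := by
  obtain ⟨l, h1, h2, h3, h4, h5, h6⟩ := h
  refine ⟨l.reverse, List.nodup_reverse.2 h1, ?_, ?_, ?_, ?_, ?_⟩
  · rw [List.isChain_reverse]
    exact h2
  · intro a ha
    exact h3 a (List.mem_reverse.1 ha)
  · exact List.mem_reverse.2 h4
  · intro b hb
    rw [List.head?_reverse] at hb
    exact h6 b hb
  · intro a ha
    rw [List.getLast?_reverse] at ha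
    exact h5 a ha

/-! ### Strictness under removal -/

theorem Str.map {X X' : Finset V} {ρ ρ' : V → ℕ} {w : V} (h : Str X ρ) (f : V → V)
    (hf : ∀ y ∈ X', f y ∈ X) (hfw : ∀ y ∈ X', f y ≠ w) (hi : Set.InjOn f X') (hw : w ∈ X)
    (hl : ∀ y ∈ X', ρ (f y) ≤ ρ' y ∨ (ρ w ≤ ρ (f y) ∧ ρ (f y) ≤ ρ' y + 1)) : Str X' ρ' := by
  intro t ht
  by_cases hc : ρ w ≤ t + 1
  · have h1 := h (t + 1) (by omega)
    have h2 : ((X'.filter (fun y => ρ' y ≤ t)).image f) ⊆
        (X.filter (fun y => ρ y ≤ t + 1)).erase w := by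
      intro z hz
      obtain ⟨y, hy, rfl⟩ := Finset.mem_image.1 hz
      rw [Finset.mem_filter] at hy
      rw [Finset.mem_erase, Finset.mem_filter]
      refine ⟨hfw y hy.1, hf y hy.1, ?_⟩
      rcases hl y hy.1 with h3 | h3 <;> omega
    have h3 := Finset.card_le_card h2
    rw [Finset.card_image_of_injOn (fun a ha b hb => hi (Finset.mem_filter.1 ha).1
      (Finset.mem_filter.1 hb).1), Finset.card_erase_of_mem
      (Finset.mem_filter.2 ⟨hw, hc⟩)] at h3
    omega
  · have h1 := h t ht
    have h2 : ((X'.filter (fun y => ρ' y ≤ t)).image f) ⊆ X.filter (fun y => ρ y ≤ t) := by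
      intro z hz
      obtain ⟨y, hy, rfl⟩ := Finset.mem_image.1 hz
      rw [Finset.mem_filter] at hy
      rw [Finset.mem_filter]
      refine ⟨hf y hy.1, ?_⟩
      rcases hl y hy.1 with h3 | h3 <;> omega
    have h3 := Finset.card_le_card h2
    rw [Finset.card_image_of_injOn (fun a ha b hb => hi (Finset.mem_filter.1 ha).1
      (Finset.mem_filter.1 hb).1)] at h3
    omega

theorem Str.map' {X X' : Finset V} {ρ ρ' : V → ℕ} (h : Str X ρ) (f : V → V)
    (hf : ∀ y ∈ X', f y ∈ X) (hi : Set.InjOn f X')
    (hl : ∀ y ∈ X', ρ (f y) ≤ ρ' y) : Str X' ρ' := by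
  intro t ht
  have h1 := h t ht
  have h2 : ((X'.filter (fun y => ρ' y ≤ t)).image f) ⊆ X.filter (fun y => ρ y ≤ t) := by
    intro z hz
    obtain ⟨y, hy, rfl⟩ := Finset.mem_image.1 hz
    rw [Finset.mem_filter] at hy
    rw [Finset.mem_filter]
    exact ⟨hf y hy.1, (hl y hy.1).trans hy.2⟩
  have h3 := Finset.card_le_card h2
  rw [Finset.card_image_of_injOn (fun a ha b hb => hi (Finset.mem_filter.1 ha).1
    (Finset.mem_filter.1 hb).1)] at h3
  omega

theorem Str.erase {X : Finset V} {ρ ρ' : V → ℕ} {w : V} (h : Str X ρ) (hw : w ∈ X)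
    (hl : ∀ y ∈ X, y ≠ w → ρ y ≤ ρ' y ∨ (ρ w ≤ ρ y ∧ ρ y ≤ ρ' y + 1)) :
    Str (X.erase w) ρ' :=
  h.map id (fun y hy => (Finset.mem_erase.1 hy).2) (fun y hy => (Finset.mem_erase.1 hy).1)
    (Function.injective_id.injOn) hw
    (fun y hy => hl y (Finset.mem_erase.1 hy).2 (Finset.mem_erase.1 hy).1)

theorem Str.mono {X : Finset V} {ρ ρ' : V → ℕ} (h : Str X ρ)
    (hl : ∀ y ∈ X, ρ y ≤ ρ' y) : Str X ρ' :=
  h.map' id (fun y hy => hy) (Function.injective_id.injOn) hl

theorem Str.two_le {X : Finset V} {ρ : V → ℕ} (h : Str X ρ) {x : V} (hx : x ∈ X) :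
    2 ≤ ρ x := by
  by_contra hc
  have h1 := h 1 le_rfl
  have h2 : x ∈ X.filter (fun y => ρ y ≤ 1) := Finset.mem_filter.2 ⟨hx, by omega⟩
  have h3 := Finset.card_pos.2 ⟨x, h2⟩
  omega

/-! ### Deleting a vertex -/

open Classical in
theorem rd_erase (R : V → V → Prop) (S : Finset V) {x y : V} (hx : x ∈ S) (hxy : y ≠ x) :
    rd R S y = rd R (S.erase x) y + (if R y x then 1 else 0) := by
  unfold rd
  have h1 : (S.erase x).filter (fun z => z ≠ y ∧ R y z) =
      (S.filter (fun z => z ≠ y ∧ R y z)).erase x := by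
    ext z
    simp only [Finset.mem_filter, Finset.mem_erase]
    tauto
  rw [h1]
  split_ifs with h
  · rw [Finset.card_erase_add_one]
    exact Finset.mem_filter.2 ⟨hx, hxy.symm, h⟩
  · rw [Finset.erase_eq_of_notMem, add_zero]
    intro h2
    exact h (Finset.mem_filter.1 h2).2.2

theorem Good.del {R : V → V → Prop} {S X K : Finset V} {v x : V}
    (h : Good R (S.erase x) (X.erase x) (K.erase x) v) : Good R S X K v := by
  obtain ⟨l, h1, h2, h3, h4, h5, h6⟩ := h
  refine ⟨l, h1, h2, fun a ha => (Finset.mem_erase.1 (h3 a ha)).2, h4, ?_, ?_⟩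
  · intro b hb hk
    have hb' : b ∈ l := List.mem_of_mem_head? hb
    exact h5 b hb (Finset.mem_erase.2 ⟨(Finset.mem_erase.1 (h3 b hb')).1, hk⟩)
  · intro b hb hk
    have hb' : b ∈ l := List.mem_of_mem_getLast? hb
    exact h6 b hb (Finset.mem_erase.2 ⟨(Finset.mem_erase.1 (h3 b hb')).1, hk⟩)

/-! ### Contracting an edge `x → w` (the new vertex is called `w`) -/

/-- The relation after contracting `x → w`: the vertex `w` keeps its row and gets the column
of `x`. -/
def con (R : V → V → Prop) (x w : V) : V → V → Prop :=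
  fun a b => if b = w then R a x else R a b

/-- Required columns after contracting `x → w`. -/
def conK (K : Finset V) (x w : V) : Finset V :=
  if x ∈ K then insert w (K.erase x) else (K.erase x).erase w

theorem mem_conK {K : Finset V} {x w y : V} (hyx : y ≠ x) (hxw : x ≠ w) :
    y ∈ conK K x w ↔ (if y = w then x ∈ K else y ∈ K) := by
  unfold conK
  split_ifs with h1 h2 h2
  · simp [h2, h1]
  · simp [h2, hyx]
  · simp [h2, h1]
  · simp [h2, hyx]

theorem notMem_conK_self {K : Finset V} {x w : V} (hxw : x ≠ w) : x ∉ conK K x w := by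
  unfold conK
  split_ifs with h1
  · simp [hxw]
  · simp

open Classical in
/-- Rows after contraction. -/
theorem rd_con (R : V → V → Prop) (S : Finset V) {x w y : V} (hx : x ∈ S) (hw : w ∈ S)
    (hxw : x ≠ w) (hyx : y ≠ x) (hyw : y ≠ w) :
    rd R S y = rd (con R x w) (S.erase x) y + (if R y w then 1 else 0) := by
  rw [rd_erase R S hw hyw]
  congr 1
  unfold rd
  have h1 : (S.erase w).filter (fun z => z ≠ y ∧ R y z) =
      ((S.erase x).filter (fun z => z ≠ y ∧ con R x w y z)).image (Equiv.swap x w) := by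
    ext z
    simp only [Finset.mem_filter, Finset.mem_erase, Finset.mem_image, con]
    constructor
    · rintro ⟨⟨h1, h2⟩, h3, h4⟩
      by_cases hzx : z = x
      · subst hzx
        exact ⟨w, ⟨⟨hxw.symm, hw⟩, hyw.symm, by simpa using h4⟩, by simp⟩
      · refine ⟨z, ⟨⟨hzx, h2⟩, h3, by simpa [h1] using h4⟩, ?_⟩
        exact Equiv.swap_apply_of_ne_of_ne hzx h1
    · rintro ⟨a, ⟨⟨h1, h2⟩, h3, h4⟩, rfl⟩
      by_cases haw : a = w
      · subst haw
        simp only [Equiv.swap_apply_right, if_true] at h4 ⊢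
        exact ⟨⟨hxw, hx⟩, hyx.symm, h4⟩
      · rw [Equiv.swap_apply_of_ne_of_ne h1 haw]
        rw [if_neg haw] at h4
        exact ⟨⟨haw, h2⟩, h3, h4⟩
  rw [h1, Finset.card_image_of_injective _ (Equiv.swap x w).injective]

open Classical in
/-- The row of the merged vertex. -/
theorem rd_con_self (R : V → V → Prop) (S : Finset V) {x w : V} (hx : x ∈ S)
    (hxw : x ≠ w) :
    rd R S w = rd (con R x w) (S.erase x) w + (if R w x then 1 else 0) := by
  rw [rd_erase R S hx hxw.symm]
  congr 1
  unfold rd
  congr 1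
  ext z
  simp only [Finset.mem_filter, Finset.mem_erase, con]
  constructor
  · rintro ⟨h1, h2, h3⟩
    exact ⟨h1, h2, by simpa [h2] using h3⟩
  · rintro ⟨h1, h2, h3⟩
    exact ⟨h1, h2, by simpa [h2] using h3⟩

open Classical in
/-- Columns after contraction. -/
theorem cd_con (R : V → V → Prop) (S : Finset V) {x w y : V} (hx : x ∈ S)
    (hyx : y ≠ x) (hyw : y ≠ w) :
    rd (fl R) S y = rd (fl (con R x w)) (S.erase x) y + (if R x y then 1 else 0) := by
  rw [rd_erase (fl R) S hx hyx]
  congr 1
  unfold rd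
  congr 1
  ext z
  simp only [Finset.mem_filter, Finset.mem_erase, con, fl, if_neg hyw]

open Classical in
/-- The column of the merged vertex. -/
theorem cd_con_self (R : V → V → Prop) (S : Finset V) {x w : V} (hw : w ∈ S)
    (hxw : x ≠ w) :
    rd (fl R) S x = rd (fl (con R x w)) (S.erase x) w + (if R w x then 1 else 0) := by
  rw [rd_erase (fl R) S hw hxw]
  congr 1
  unfold rd
  congr 1
  ext z
  simp only [Finset.mem_filter, Finset.mem_erase, con, fl]
  constructor
  · rintro ⟨⟨h1, h2⟩, h3, h4⟩
    exact ⟨⟨h3, h2⟩, h1, by simpa using h4⟩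
  · rintro ⟨⟨h1, h2⟩, h3, h4⟩
    exact ⟨⟨h3, h2⟩, h1, by simpa using h4⟩

theorem isChain_con {R : V → V → Prop} {x w : V} {l : List V} (h : l.IsChain (con R x w))
    (hw : w ∉ l) : l.IsChain R := by
  refine List.IsChain.imp_of_mem_imp ?_ h
  intro a b ha hb hab
  unfold con at hab
  rw [if_neg] at hab
  · exact hab
  · rintro rfl
    exact hw hb

theorem Good.con {R : V → V → Prop} {S X K : Finset V} {v x w : V} (hx : x ∈ S)
    (hxw : x ≠ w) (hR : R x w)
    (h : Good (con R x w) (S.erase x) (X.erase x) (conK K x w) v) : Good R S X K v := by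
  obtain ⟨l, h1, h2, h3, h4, h5, h6⟩ := h
  by_cases hwl : w ∈ l
  · obtain ⟨l1, l2, rfl⟩ := List.append_of_mem hwl
    have hxl : x ∉ l1 ++ w :: l2 := fun hh => (Finset.mem_erase.1 (h3 x hh)).1 rfl
    have hnd := h1
    rw [List.nodup_append] at h1
    obtain ⟨hn1, hn2, hn3⟩ := h1
    rw [List.nodup_cons] at hn2
    have hw1 : w ∉ l1 := fun hh => hn3 w hh w (by simp) rfl
    rw [List.isChain_append] at h2
    obtain ⟨hc1, hc2, hc3⟩ := h2
    have hc2' : (w :: l2).IsChain R := by
      cases l2 with
      | nil => simp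
      | cons b l3 =>
        rw [List.isChain_cons_cons] at hc2 ⊢
        have hbw : b ≠ w := by
          rintro rfl
          exact hn2.1 (by simp)
        refine ⟨?_, isChain_con hc2.2 hn2.1⟩
        have := hc2.1
        unfold NashP.con at this
        rwa [if_neg hbw] at this
    refine ⟨l1 ++ x :: w :: l2, ?_, ?_, ?_, ?_, ?_, ?_⟩
    · have : (l1 ++ x :: w :: l2).Perm (x :: (l1 ++ w :: l2)) := List.perm_middle
      rw [this.nodup_iff, List.nodup_cons]
      exact ⟨hxl, hnd⟩
    · rw [List.isChain_append]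
      refine ⟨isChain_con hc1 hw1, ?_, ?_⟩
      · rw [List.isChain_cons_cons]
        exact ⟨hR, hc2'⟩
      · intro a ha b hb
        simp only [List.head?_cons, Option.mem_def, Option.some.injEq] at hb
        subst hb
        have := hc3 a ha w (by simp)
        unfold NashP.con at this
        rwa [if_pos rfl] at this
    · intro a ha
      rw [List.mem_append, List.mem_cons] at ha
      rcases ha with ha | rfl | ha
      · exact (Finset.mem_erase.1 (h3 a (by simp [ha]))).2
      · exact hx
      · exact (Finset.mem_erase.1 (h3 a (by rw [List.mem_append]; exact Or.inr ha))).2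
    · rw [List.mem_append] at h4
      rcases h4 with h4 | h4
      · simp [h4]
      · simp only [List.mem_append, List.mem_cons] at h4 ⊢
        tauto
    · intro b hb
      cases l1 with
      | nil =>
        simp only [List.nil_append, List.head?_cons, Option.mem_def, Option.some.injEq] at hb
        subst hb
        intro hk
        have := h5 w (by simp)
        rw [mem_conK hxw.symm hxw, if_pos rfl] at this
        exact this hk
      | cons c l3 =>
        simp only [List.cons_append, List.head?_cons, Option.mem_def, Option.some.injEq] at hb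
        subst hb
        intro hk
        have hcx : c ≠ x := by
          rintro rfl
          exact hxl (by simp)
        have hcw : c ≠ w := by
          rintro rfl
          exact hw1 (by simp)
        have := h5 c (by simp)
        rw [mem_conK hcx hxw, if_neg hcw] at this
        exact this hk
    · intro a ha
      have ha' : a ∈ (l1 ++ w :: l2).getLast? := by
        rw [Option.mem_def] at ha ⊢
        rw [← ha]
        simp [List.getLast?_append, List.getLast?_cons_cons]
      intro hX
      have hal := List.mem_of_mem_getLast? ha'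
      have hax : a ≠ x := by
        rintro rfl
        exact hxl hal
      exact h6 a ha' (Finset.mem_erase.2 ⟨hax, hX⟩)
  · refine ⟨l, h1, isChain_con h2 hwl, fun a ha => (Finset.mem_erase.1 (h3 a ha)).2, h4, ?_, ?_⟩
    · intro b hb hk
      have hb' : b ∈ l := List.mem_of_mem_head? hb
      have hbx := (Finset.mem_erase.1 (h3 b hb')).1
      have hbw : b ≠ w := by
        rintro rfl
        exact hwl hb'
      have := h5 b hb
      rw [mem_conK hbx hxw, if_neg hbw] at this
      exact this hk
    · intro b hb hk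
      have hb' : b ∈ l := List.mem_of_mem_getLast? hb
      exact h6 b hb (Finset.mem_erase.2 ⟨(Finset.mem_erase.1 (h3 b hb')).1, hk⟩)

end Pool.Agent.NashP
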