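import Pool.Agent.NashP.Hub
import Pool.Agent.NashP.Menger

/-!
# Nash-Williams' condition (P) and connectivity
-/

set_option autoImplicit false

namespace Pool.Agent.NashP

open Finset

variable {V : Type*} [DecidableEq V] [Fintype V]

/-- Condition (P) for a relation on a finite type. -/
structure PC (R : V → V → Prop) : Prop where
  irr : ∀ v, ¬ R v v
  n3 : 3 ≤ Fintype.card V
  out : ∀ t, 1 ≤ t → 2 * t + 1 < Fintype.card V →
    (univ.filter (fun y => rd R univ y ≤ t)).card < t
  inn : ∀ t, 1 ≤ t → 2 * t + 1 < Fintype.card V →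
    (univ.filter (fun y => rd (fl R) univ y ≤ t)).card < t
  outm : ∀ t, 2 * t + 1 = Fintype.card V →
    (univ.filter (fun y => rd R univ y ≤ t)).card ≤ t
  innm : ∀ t, 2 * t + 1 = Fintype.card V →
    (univ.filter (fun y => rd (fl R) univ y ≤ t)).card ≤ t

theorem PC.fl {R : V → V → Prop} (h : PC R) : PC (fl R) :=
  ⟨h.irr, h.n3, h.inn, h.out, h.innm, h.outm⟩

omit [Fintype V] in
/-- A bound for the row of `x` from a set containing its out-neighbours. -/
theorem rd_le_of {R : V → V → Prop} {U : Finset V} {x : V} (T : Finset V)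
    (h : ∀ b ∈ U, b ≠ x → R x b → b ∈ T) : rd R U x ≤ T.card := by
  classical
  unfold rd
  apply Finset.card_le_card
  intro b hb
  rw [Finset.mem_filter] at hb
  exact h b hb.1 hb.2.1 hb.2.2

omit [Fintype V] in
theorem le_rd_of {R : V → V → Prop} {U : Finset V} {x : V} (T : Finset V)
    (h : ∀ b ∈ T, b ∈ U ∧ b ≠ x ∧ R x b) : T.card ≤ rd R U x := by
  classical
  unfold rd
  apply Finset.card_le_card
  intro b hb
  rw [Finset.mem_filter]
  exact h b hb

/-- A closed set `S` with a single exit `y`: then `n = 2h + 1`, `S` is the set of rows at most `h`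
and the rest is the set of columns at most `h`. -/
theorem closed_card {R : V → V → Prop} (h : PC R) {S : Finset V} {y : V} (hS : S.Nonempty)
    (hy : y ∉ S) (hcl : ∀ a ∈ S, ∀ b, R a b → b ∈ S ∨ b = y) (hL : ∃ z, z ∉ S ∧ z ≠ y) :
    2 * S.card + 1 = Fintype.card V ∧ (∀ x, rd R univ x ≤ S.card ↔ x ∈ S) ∧
      (∀ z, rd (fl R) univ z ≤ S.card ↔ (z ∉ S ∧ z ≠ y)) := by
  classical
  set L : Finset V := (univ \ S).erase y with hLd
  have hmL : ∀ z, z ∈ L ↔ (z ∉ S ∧ z ≠ y) := by
    intro z
    rw [hLd, Finset.mem_erase, Finset.mem_sdiff]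
    simp only [Finset.mem_univ, true_and]
    tauto
  have hLne : L.Nonempty := by
    obtain ⟨z, hz⟩ := hL
    exact ⟨z, (hmL z).2 hz⟩
  have hcard : S.card + L.card + 1 = Fintype.card V := by
    have h1 : L.card + 1 = (univ \ S).card := by
      rw [hLd, Finset.card_erase_add_one]
      rw [Finset.mem_sdiff]
      exact ⟨Finset.mem_univ _, hy⟩
    have h2 := Finset.card_sdiff_add_card_eq_card (Finset.subset_univ S)
    rw [Finset.card_univ] at h2
    omega
  have hrow : ∀ x ∈ S, rd R univ x ≤ S.card := by
    intro x hx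
    have h1 : rd R univ x ≤ ((insert y S).erase x).card := by
      apply rd_le_of
      intro b _ hbx hR
      rw [Finset.mem_erase, Finset.mem_insert]
      refine ⟨hbx, ?_⟩
      rcases hcl x hx b hR with h2 | h2
      · exact Or.inr h2
      · exact Or.inl h2
    rw [Finset.card_erase_of_mem (Finset.mem_insert_of_mem hx),
      Finset.card_insert_of_notMem hy] at h1
    omega
  have hcol : ∀ z ∈ L, rd (fl R) univ z ≤ L.card := by
    intro z hz
    have h1 : rd (fl R) univ z ≤ ((insert y L).erase z).card := by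
      apply rd_le_of
      intro b _ hbz hR
      rw [Finset.mem_erase, Finset.mem_insert]
      refine ⟨hbz, ?_⟩
      by_cases hby : b = y
      · exact Or.inl hby
      right
      rw [hmL]
      refine ⟨fun hbS => ?_, hby⟩
      have hz' := (hmL z).1 hz
      rcases hcl b hbS z hR with h2 | h2
      · exact hz'.1 h2
      · exact hz'.2 h2
    have hyL : y ∉ L := fun hh => ((hmL y).1 hh).2 rfl
    rw [Finset.card_erase_of_mem (Finset.mem_insert_of_mem hz),
      Finset.card_insert_of_notMem hyL] at h1
    omega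
  have hS1 := hS.card_pos
  have hL1 := hLne.card_pos
  have hsubS : S ⊆ univ.filter (fun x => rd R univ x ≤ S.card) := by
    intro x hx
    rw [Finset.mem_filter]
    exact ⟨Finset.mem_univ _, hrow x hx⟩
  have hsubL : L ⊆ univ.filter (fun x => rd (fl R) univ x ≤ L.card) := by
    intro x hx
    rw [Finset.mem_filter]
    exact ⟨Finset.mem_univ _, hcol x hx⟩
  have hcS := Finset.card_le_card hsubS
  have hcL := Finset.card_le_card hsubL
  have e1 : 2 * S.card + 1 = Fintype.card V := by
    rcases lt_trichotomy (2 * S.card + 1) (Fintype.card V) with h3 | h3 | h3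
    · have := h.out S.card hS1 h3
      omega
    · exact h3
    · have := h.inn L.card hL1 (by omega)
      omega
  have e2 : L.card = S.card := by omega
  refine ⟨e1, ?_, ?_⟩
  · intro x
    refine ⟨fun hx => ?_, fun hx => hrow x hx⟩
    have h3 := h.outm S.card e1
    have h4 := Finset.eq_of_subset_of_card_le hsubS h3
    rw [h4, Finset.mem_filter]
    exact ⟨Finset.mem_univ _, hx⟩
  · intro z
    rw [← hmL]
    refine ⟨fun hx => ?_, fun hx => e2 ▸ hcol z hx⟩
    have h3 := h.innm S.card e1
    rw [e2] at hsubL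
    have h4 := Finset.eq_of_subset_of_card_le hsubL (by omega)
    rw [h4, Finset.mem_filter]
    exact ⟨Finset.mem_univ _, hx⟩

/-- A closed set misses at most one vertex. -/
theorem closed_two {R : V → V → Prop} (h : PC R) {S : Finset V} (hS : S.Nonempty)
    (hcl : ∀ a ∈ S, ∀ b, R a b → b ∈ S) {y z : V} (hy : y ∉ S) (hz : z ∉ S) (hyz : y ≠ z) :
    False := by
  have h1 := closed_card h hS hy (fun a ha b hb => Or.inl (hcl a ha b hb)) ⟨z, hz, hyz.symm⟩
  have h2 := closed_card h hS hz (fun a ha b hb => Or.inl (hcl a ha b hb)) ⟨y, hy, hyz⟩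
  have h3 := (h1.2.2 z).2 ⟨hz, hyz.symm⟩
  have h4 := (h2.2.2 z).1 h3
  exact h4.2 rfl

/-- Strong connectivity: a nonempty closed set is everything. -/
theorem closed_univ {R : V → V → Prop} (h : PC R) {S : Finset V} (hS : S.Nonempty)
    (hcl : ∀ a ∈ S, ∀ b, R a b → b ∈ S) (y : V) : y ∈ S := by
  classical
  by_contra hy
  have huniq : ∀ z, z ∉ S → z = y := by
    intro z hz
    by_contra hne
    exact closed_two h hS hcl hz hy hne
  have hcard := h.n3
  -- two further vertices
  have h1 : 1 < (univ.erase y).card := by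
    rw [Finset.card_erase_of_mem (Finset.mem_univ _), Finset.card_univ]
    omega
  obtain ⟨a, ha, b, hb, hab⟩ := Finset.one_lt_card.1 h1
  rw [Finset.mem_erase] at ha hb
  refine closed_two h.fl (S := {y}) ⟨y, Finset.mem_singleton_self y⟩ ?_
    (y := a) (z := b) ?_ ?_ hab
  · intro c hc d hd
    rw [Finset.mem_singleton] at hc ⊢
    subst hc
    have hd' : R d c := hd
    apply huniq
    intro hdS
    exact hy (hcl d hdS c hd')
  · rw [Finset.mem_singleton]
    exact ha.1
  · rw [Finset.mem_singleton]
    exact hb.1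

/-- In a closed set with one exit, some vertex dominates all the others and the exit. -/
theorem closed_full {R : V → V → Prop} (h : PC R) {S : Finset V} {y : V} (hS : S.Nonempty)
    (hy : y ∉ S) (hcl : ∀ a ∈ S, ∀ b, R a b → b ∈ S ∨ b = y) (hL : ∃ z, z ∉ S ∧ z ≠ y) :
    ∃ x ∈ S, ∀ b, (b ∈ S ∨ b = y) → b ≠ x → R x b := by
  classical
  by_contra hc
  push Not at hc
  obtain ⟨e1, e2, e3⟩ := closed_card h hS hy hcl hL
  have hrow : ∀ x ∈ S, rd R univ x ≤ S.card - 1 := by
    intro x hx
    obtain ⟨b, hb, hbx, hRb⟩ := hc x hx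
    have hbm : b ∈ (insert y S).erase x := by
      rw [Finset.mem_erase, Finset.mem_insert]
      exact ⟨hbx, hb.symm⟩
    have h1 : rd R univ x ≤ (((insert y S).erase x).erase b).card := by
      apply rd_le_of
      intro c _ hcx hR
      rw [Finset.mem_erase, Finset.mem_erase, Finset.mem_insert]
      refine ⟨?_, hcx, ?_⟩
      · rintro rfl
        exact hRb hR
      · rcases hcl x hx c hR with h2 | h2
        · exact Or.inr h2
        · exact Or.inl h2
    rw [Finset.card_erase_of_mem hbm,
      Finset.card_erase_of_mem (Finset.mem_insert_of_mem hx),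
      Finset.card_insert_of_notMem hy] at h1
    omega
  have hS1 := hS.card_pos
  rcases Nat.lt_or_ge 1 S.card with h1 | h1
  · have h2 := h.out (S.card - 1) (by omega) (by omega)
    have h3 : S ⊆ univ.filter (fun x => rd R univ x ≤ S.card - 1) := by
      intro x hx
      rw [Finset.mem_filter]
      exact ⟨Finset.mem_univ _, hrow x hx⟩
    have := Finset.card_le_card h3
    omega
  · have h2 : y ∈ S := by
      refine closed_univ h hS ?_ y
      intro a ha b hab
      exfalso
      have h3 := hrow a ha
      have h4 : ({b} : Finset V).card ≤ rd R univ a := by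
        apply le_rd_of
        intro c hc
        rw [Finset.mem_singleton] at hc
        subst hc
        refine ⟨Finset.mem_univ _, ?_, hab⟩
        rintro rfl
        exact h.irr _ hab
      rw [Finset.card_singleton] at h4
      omega
    exact hy h2

/-! ### Reachability by lists -/

/-- There is a path from `a` to `b` avoiding `W`. -/
def Rch (R : V → V → Prop) (W : V → Prop) (a b : V) : Prop :=
  ∃ l, Pth R a b l ∧ ∀ z ∈ l, ¬ W z

omit [Fintype V] [DecidableEq V] in
theorem Rch.refl {R : V → V → Prop} {W : V → Prop} {a : V} (h : ¬ W a) : Rch R W a a :=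
  ⟨[a], Pth.refl a, by simpa using h⟩

omit [Fintype V] in
theorem Rch.tail {R : V → V → Prop} {W : V → Prop} {a b c : V} (h : Rch R W a b)
    (hbc : R b c) (hc : ¬ W c) : Rch R W a c := by
  obtain ⟨l, hl, hlW⟩ := h
  by_cases hcl : c ∈ l
  · obtain ⟨l1, l2, rfl⟩ := List.append_of_mem hcl
    refine ⟨l1 ++ [c], hl.left, ?_⟩
    intro z hz
    apply hlW
    rw [List.mem_append, List.mem_singleton] at hz
    rw [List.mem_append, List.mem_cons]
    rcases hz with hz | hz
    · exact Or.inl hz
    · exact Or.inr (Or.inl hz)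
  · refine ⟨l ++ [c], hl.append (Pth.refl c) hbc ?_, ?_⟩
    · intro z hz hz'
      rw [List.mem_singleton] at hz'
      subst hz'
      exact hcl hz
    · intro z hz
      rw [List.mem_append, List.mem_singleton] at hz
      rcases hz with hz | rfl
      · exact hlW z hz
      · exact hc

/-- Any vertex reaches any other. -/
theorem rch_all {R : V → V → Prop} (h : PC R) (a b : V) : Rch R (fun _ => False) a b := by
  classical
  have := closed_univ h (S := univ.filter (fun b => Rch R (fun _ => False) a b))
    ⟨a, by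
      rw [Finset.mem_filter]
      exact ⟨Finset.mem_univ _, Rch.refl (by simp)⟩⟩ ?_ b
  · rw [Finset.mem_filter] at this
    exact this.2
  · intro c hc d hd
    rw [Finset.mem_filter] at hc ⊢
    exact ⟨Finset.mem_univ _, hc.2.tail hd (by simp)⟩

end Pool.Agent.NashP
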