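import Pool.Agent.NashP.One

/-!
# Common cycles through a vertex of large semidegree
-/

set_option autoImplicit false

namespace Pool.Agent.NashP

open Finset

variable {V : Type*} [DecidableEq V]

/-- `l` is (the list of vertices of) a directed cycle of length at least two. -/
def IsCyc (R : V → V → Prop) (l : List V) : Prop :=
  2 ≤ l.length ∧ l.Nodup ∧ l.IsChain R ∧ ∀ a ∈ l.getLast?, ∀ b ∈ l.head?, R a b

open Classical in
/-- A hub at a vertex: if `u` is missed by at most `k - 1` rows (the ones in `X`) and these are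
strict below `k`, and the same for the columns, then every `v` lies on a common cycle with `u`. -/
theorem cyc_of_hub (R : V → V → Prop) (S : Finset V) (u v : V) (hu : u ∉ S) (hv : v ∈ S)
    (h1 : ∀ t, 1 ≤ t → (S.filter (fun y => ¬ R y u ∧ rd R S y ≤ t)).card < t)
    (h2 : ∀ t, 1 ≤ t → (S.filter (fun y => ¬ R u y ∧ rd (fl R) S y ≤ t)).card < t) :
    ∃ l : List V, IsCyc R l ∧ u ∈ l ∧ v ∈ l ∧ ∀ a ∈ l, a = u ∨ a ∈ S := by
  have hX : Str (S.filter (fun y => ¬ R y u)) (rd R S) := by
    intro t ht
    have := h1 t ht
    rw [Finset.filter_filter]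
    convert this using 2
  have hK : Str (S.filter (fun y => ¬ R u y)) (rd (fl R) S) := by
    intro t ht
    have := h2 t ht
    rw [Finset.filter_filter]
    convert this using 2
  obtain ⟨l, hl1, hl2, hl3, hl4, hl5, hl6⟩ := good_of_str R S _ _ v
    (Finset.filter_subset _ _) (Finset.filter_subset _ _) hv hX hK
  have hul : u ∉ l := fun hh => hu (hl3 u hh)
  refine ⟨u :: l, ⟨?_, ?_, ?_, ?_⟩, by simp, by simp [hl4], ?_⟩
  · have := List.length_pos_of_mem hl4
    simp only [List.length_cons]
    omega
  · rw [List.nodup_cons]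
    exact ⟨hul, hl1⟩
  · rw [List.isChain_cons]
    refine ⟨?_, hl2⟩
    intro b hb
    have hbS := hl3 b (List.mem_of_mem_head? hb)
    have := hl5 b hb
    by_contra hc
    exact this (Finset.mem_filter.2 ⟨hbS, hc⟩)
  · intro a ha b hb
    simp only [List.head?_cons, Option.mem_def, Option.some.injEq] at hb
    subst hb
    have hne : l ≠ [] := List.ne_nil_of_mem hl4
    have ha' : a ∈ l.getLast? := by
      rw [List.getLast?_cons] at ha
      rw [Option.mem_def] at ha ⊢
      rw [List.getLast?_eq_some_getLast hne] at ha ⊢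
      simpa using ha
    have haS := hl3 a (List.mem_of_mem_getLast? ha')
    have := hl6 a ha'
    by_contra hc
    exact this (Finset.mem_filter.2 ⟨haS, hc⟩)
  · intro a ha
    rw [List.mem_cons] at ha
    rcases ha with ha | ha
    · exact Or.inl ha
    · exact Or.inr (hl3 a ha)

end Pool.Agent.NashP
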