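import Pool.Agent.NashP.Base

/-!
# One marked vertex: the strict path lemma (induction)
-/

set_option autoImplicit false

namespace Pool.Agent.NashP

open Finset

variable {V : Type*} [DecidableEq V]

/-- Virtual row degrees: the marked vertex `v` has a debt `e`. -/
noncomputable def vd (R : V → V → Prop) (S : Finset V) (v : V) (e : ℕ) (x : V) : ℕ :=
  rd R S x + (if x = v then e else 0)

theorem vd_of_ne {R : V → V → Prop} {S : Finset V} {v : V} {e : ℕ} {x : V} (h : x ≠ v) :
    vd R S v e x = rd R S x := by simp [vd, h]

theorem vd_self {R : V → V → Prop} {S : Finset V} {v : V} {e : ℕ} :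
    vd R S v e v = rd R S v + e := by simp [vd]

theorem exists_of_rd_pos {R : V → V → Prop} {S : Finset V} {x : V} (h : 0 < rd R S x) :
    ∃ w ∈ S, w ≠ x ∧ R x w := by
  classical
  unfold rd at h
  obtain ⟨w, hw⟩ := Finset.card_pos.1 h
  rw [Finset.mem_filter] at hw
  exact ⟨w, hw.1, hw.2.1, hw.2.2⟩

/-- The induction hypothesis. -/
def IH (V : Type*) [DecidableEq V] (n : ℕ) : Prop :=
  ∀ (R : V → V → Prop) (S X K : Finset V) (v : V) (er ec : ℕ), S.card < n → X ⊆ S → K ⊆ S →
    v ∈ S → er + ec ≤ 1 → Str X (vd R S v er) → Str K (vd (fl R) S v ec) → Good R S X K v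

theorem step_row {n : ℕ} (ih : IH V n) (R : V → V → Prop) (S X K : Finset V) (v : V)
    (er ec : ℕ) (hS : S.card = n) (hX : X ⊆ S) (hK : K ⊆ S) (hv : v ∈ S) (he : er + ec ≤ 1)
    (hx1 : Str X (vd R S v er)) (hk1 : Str K (vd (fl R) S v ec)) {x : V} (hx : x ∈ X)
    (hxv : x ≠ v) (hmin : ∀ y ∈ X, vd R S v er x ≤ vd R S v er y) : Good R S X K v := by
  classical
  have hxS := hX hx
  have hcard : (S.erase x).card < n := by
    rw [← hS]
    exact Finset.card_erase_lt_of_mem hxS
  have hXe : X.erase x ⊆ S.erase x := Finset.erase_subset_erase _ hX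
  have hKe : K.erase x ⊆ S.erase x := Finset.erase_subset_erase _ hK
  have hvS : v ∈ S.erase x := Finset.mem_erase.2 ⟨hxv.symm, hv⟩
  -- the lowest required column among the out-neighbours of x
  set N : Finset V := K.filter (fun y => y ≠ x ∧ R x y) with hN
  -- choose w
  have hw : ∃ w ∈ S, w ≠ x ∧ R x w ∧ (∀ y ∈ N, w ∈ K ∧ vd (fl R) S v ec w ≤ vd (fl R) S v ec y) := by
    by_cases hNe : N.Nonempty
    · obtain ⟨w, hw, hwm⟩ := Finset.exists_min_image N (vd (fl R) S v ec) hNe
      have hw' := Finset.mem_filter.1 hw
      exact ⟨w, hK hw'.1, hw'.2.1, hw'.2.2, fun y hy => ⟨hw'.1, hwm y hy⟩⟩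
    · have h2 := hx1.two_le hx
      rw [vd_of_ne hxv] at h2
      obtain ⟨w, h3, h4, h5⟩ := exists_of_rd_pos (show 0 < rd R S x by omega)
      refine ⟨w, h3, h4, h5, fun y hy => ?_⟩
      exact absurd ⟨y, hy⟩ hNe
  obtain ⟨w, hwS, hwx, hRw, hwm⟩ := hw
  by_cases hev : R w x ∧ x ∈ K ∧ (w ∉ K ∨ vd (fl R) S v ec x < vd (fl R) S v ec w)
  · -- delete x
    obtain ⟨hwx', hxK, hev⟩ := hev
    apply Good.del
    refine ih R (S.erase x) (X.erase x) (K.erase x) v er ec hcard hXe hKe hvS he ?_ ?_
    · refine hx1.erase hx ?_
      intro y hy hyx
      right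
      refine ⟨hmin y hy, ?_⟩
      have := rd_erase R S hxS hyx
      unfold vd
      split_ifs at this ⊢ <;> omega
    · refine hk1.erase hxK ?_
      intro y hy hyx
      have h1 := rd_erase (fl R) S hxS hyx
      by_cases hxy : R x y
      · right
        have hyN : y ∈ N := Finset.mem_filter.2 ⟨hy, hyx, hxy⟩
        obtain ⟨h2, h3⟩ := hwm y hyN
        have h4 : vd (fl R) S v ec x < vd (fl R) S v ec w := by
          rcases hev with hev | hev
          · exact absurd h2 hev
          · exact hev
        refine ⟨by omega, ?_⟩
        unfold vd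
        split_ifs at h1 ⊢ <;> omega
      · left
        have h5 : ¬ (fl R) y x := hxy
        rw [if_neg h5] at h1
        unfold vd
        omega
  · -- contract x → w
    have hxw : x ≠ w := hwx.symm
    apply Good.con (w := w) hxS hxw hRw
    have hKc : conK K x w ⊆ S.erase x := by
      intro y hy
      have hyx : y ≠ x := by
        rintro rfl
        exact notMem_conK_self hxw hy
      rw [mem_conK hyx hxw] at hy
      rw [Finset.mem_erase]
      refine ⟨hyx, ?_⟩
      split_ifs at hy with h1
      · rw [h1]
        exact hwS
      · exact hK hy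
    refine ih (con R x w) (S.erase x) (X.erase x) (conK K x w) v er (if w = v then 0 else ec)
      hcard hXe hKc hvS ?_ ?_ ?_
    · split_ifs <;> omega
    · refine hx1.erase hx ?_
      intro y hy hyx
      right
      refine ⟨hmin y hy, ?_⟩
      by_cases hyw : y = w
      · subst hyw
        have := rd_con_self R S hxS hxw
        unfold vd
        split_ifs at this ⊢ <;> omega
      · have := rd_con R S hxS hwS hxw hyx hyw
        unfold vd
        split_ifs at this ⊢ <;> omega
    · -- columns
      set f : V → V := fun y => if y = w then x else y with hf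
      have hfK : ∀ y ∈ conK K x w, f y ∈ K := by
        intro y hy
        have hyx : y ≠ x := by
          rintro rfl
          exact notMem_conK_self hxw hy
        rw [mem_conK hyx hxw] at hy
        simp only [hf]
        split_ifs at hy ⊢ with h1
        · exact hy
        · exact hy
      have hfw : ∀ y ∈ conK K x w, f y ≠ w := by
        intro y hy
        simp only [hf]
        split_ifs with h1
        · exact hxw
        · exact h1
      have hfi : Set.InjOn f (conK K x w) := by
        intro a ha b hb hab
        have hax : a ≠ x := by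
          rintro rfl
          exact notMem_conK_self hxw ha
        have hbx : b ≠ x := by
          rintro rfl
          exact notMem_conK_self hxw hb
        simp only [hf] at hab
        split_ifs at hab with h1 h2 h2
        · rw [h1, h2]
        · exact absurd hab.symm hbx
        · exact absurd hab hax
        · exact hab
      -- values
      have hval : ∀ y ∈ conK K x w, y ≠ w →
          vd (fl R) S v ec (f y) = vd (fl (con R x w)) (S.erase x) v
            (if w = v then 0 else ec) y + (if R x y then 1 else 0) := by
        intro y hy hyw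
        have hyx : y ≠ x := by
          rintro rfl
          exact notMem_conK_self hxw hy
        have h1 := cd_con R S hxS hyx hyw
        simp only [hf, if_neg hyw]
        unfold vd
        by_cases hyv : y = v
        · subst hyv
          rw [if_pos rfl, if_pos rfl, if_neg (Ne.symm hyw)]
          omega
        · rw [if_neg hyv, if_neg hyv]
          omega
      have hvalw : vd (fl R) S v ec x ≤ vd (fl (con R x w)) (S.erase x) v
            (if w = v then 0 else ec) w + (if R w x then 1 else 0) := by
        have h1 := cd_con_self R S hwS hxw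
        rw [vd_of_ne hxv]
        unfold vd
        omega
      by_cases hwK : w ∈ K
      · refine hk1.map (w := w) f hfK hfw hfi hwK ?_
        intro y hy
        by_cases hyw : y = w
        · have hxK : x ∈ K := by
            have := hfK y hy
            rw [hyw] at this
            simpa [hf] using this
          have hfy : f y = x := by simp [hf, hyw]
          rw [hfy, hyw]
          by_cases hRwx : R w x
          · right
            have : ¬ (vd (fl R) S v ec x < vd (fl R) S v ec w) := by
              intro hlt
              exact hev ⟨hRwx, hxK, Or.inr hlt⟩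
            rw [if_pos hRwx] at hvalw
            exact ⟨by omega, hvalw⟩
          · left
            rw [if_neg hRwx] at hvalw
            omega
        · have h1 := hval y hy hyw
          by_cases hxy : R x y
          · right
            have hyx : y ≠ x := by
              rintro rfl
              exact notMem_conK_self hxw hy
            have hfy : f y = y := by simp [hf, hyw]
            have hyK : y ∈ K := by
              have := hfK y hy
              rwa [hfy] at this
            have h2 := (hwm y (Finset.mem_filter.2 ⟨hyK, hyx, hxy⟩)).2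
            rw [if_pos hxy] at h1
            rw [hfy] at h1 ⊢
            omega
          · left
            rw [if_neg hxy] at h1
            omega
      · refine hk1.map' f hfK hfi ?_
        intro y hy
        by_cases hyw : y = w
        · have hxK : x ∈ K := by
            have := hfK y hy
            rw [hyw] at this
            simpa [hf] using this
          have hfy : f y = x := by simp [hf, hyw]
          rw [hfy, hyw]
          have hRwx : ¬ R w x := fun hh => hev ⟨hh, hxK, Or.inl hwK⟩
          rw [if_neg hRwx] at hvalw
          omega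
        · have h1 := hval y hy hyw
          have hyx : y ≠ x := by
            rintro rfl
            exact notMem_conK_self hxw hy
          have hfy : f y = y := by simp [hf, hyw]
          have hyK : y ∈ K := by
            have := hfK y hy
            rwa [hfy] at this
          have hxy : ¬ R x y := by
            intro hxy
            exact hwK (hwm y (Finset.mem_filter.2 ⟨hyK, hyx, hxy⟩)).1
          rw [if_neg hxy] at h1
          omega

theorem step_mark {n : ℕ} (ih : IH V n) (R : V → V → Prop) (S X K : Finset V) (v : V)
    (ec : ℕ) (hS : S.card = n) (hX : X ⊆ S) (hK : K ⊆ S) (hv : v ∈ S) (he : ec ≤ 1)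
    (hx1 : Str X (vd R S v 0)) (hk1 : Str K (vd (fl R) S v ec)) (hvK : v ∈ K)
    (hmin : ∀ y ∈ K, vd (fl R) S v ec v ≤ vd (fl R) S v ec y) : Good R S X K v := by
  classical
  -- the lowest required row among the in-neighbours of v
  set N : Finset V := X.filter (fun y => y ≠ v ∧ R y v) with hN
  have hz : ∃ z ∈ S, z ≠ v ∧ R z v ∧ (∀ y ∈ N, z ∈ X ∧ rd R S z ≤ rd R S y) := by
    by_cases hNe : N.Nonempty
    · obtain ⟨z, hz, hzm⟩ := Finset.exists_min_image N (rd R S) hNe
      have hz' := Finset.mem_filter.1 hz
      exact ⟨z, hX hz'.1, hz'.2.1, hz'.2.2, fun y hy => ⟨hz'.1, hzm y hy⟩⟩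
    · have h2 := hk1.two_le hvK
      rw [vd_self] at h2
      obtain ⟨z, h3, h4, h5⟩ := exists_of_rd_pos (show 0 < rd (fl R) S v by omega)
      refine ⟨z, h3, h4, h5, fun y hy => ?_⟩
      exact absurd ⟨y, hy⟩ hNe
  obtain ⟨z, hzS, hzv, hRz, hzm⟩ := hz
  have hcard : (S.erase z).card < n := by
    rw [← hS]
    exact Finset.card_erase_lt_of_mem hzS
  have hXe : X.erase z ⊆ S.erase z := Finset.erase_subset_erase _ hX
  have hvS : v ∈ S.erase z := Finset.mem_erase.2 ⟨hzv.symm, hv⟩
  apply Good.con (w := v) hzS hzv hRz
  have hKc : conK K z v ⊆ S.erase z := by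
    intro y hy
    have hyx : y ≠ z := by
      rintro rfl
      exact notMem_conK_self hzv hy
    rw [mem_conK hyx hzv] at hy
    rw [Finset.mem_erase]
    refine ⟨hyx, ?_⟩
    split_ifs at hy with h1
    · rw [h1]
      exact hv
    · exact hK hy
  refine ih (con R z v) (S.erase z) (X.erase z) (conK K z v) v (if R v z then 1 else 0) 0
    hcard hXe hKc hvS ?_ ?_ ?_
  · split_ifs <;> omega
  · -- rows
    have hself : vd R S v 0 v ≤
        vd (con R z v) (S.erase z) v (if R v z then 1 else 0) v := by
      have := rd_con_self R S hzS hzv
      rw [vd_self, vd_self]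
      omega
    have hoth : ∀ y, y ≠ z → y ≠ v → vd R S v 0 y =
        vd (con R z v) (S.erase z) v (if R v z then 1 else 0) y + (if R y v then 1 else 0) := by
      intro y hyz hyv
      rw [vd_of_ne hyv, vd_of_ne hyv]
      exact rd_con R S hzS hv hzv hyz hyv
    by_cases hzX : z ∈ X
    · refine hx1.erase hzX ?_
      intro y hy hyz
      by_cases hyv : y = v
      · left
        rw [hyv]
        exact hself
      · have h1 := hoth y hyz hyv
        by_cases hyv' : R y v
        · right
          have h2 := (hzm y (Finset.mem_filter.2 ⟨hy, hyv, hyv'⟩)).2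
          rw [if_pos hyv'] at h1
          rw [vd_of_ne hzv, vd_of_ne hyv]
          rw [vd_of_ne hyv] at h1
          exact ⟨h2, by omega⟩
        · left
          rw [if_neg hyv'] at h1
          omega
    · rw [Finset.erase_eq_of_notMem hzX]
      refine hx1.mono ?_
      intro y hy
      have hyz : y ≠ z := by
        rintro rfl
        exact hzX hy
      by_cases hyv : y = v
      · rw [hyv]
        exact hself
      · have h1 := hoth y hyz hyv
        have hyv' : ¬ R y v := by
          intro hyv'
          exact hzX (hzm y (Finset.mem_filter.2 ⟨hy, hyv, hyv'⟩)).1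
        rw [if_neg hyv'] at h1
        omega
  · -- columns
    set f : V → V := fun y => if y = v then z else y with hf
    have hfK : ∀ y ∈ conK K z v, f y ∈ K := by
      intro y hy
      have hyx : y ≠ z := by
        rintro rfl
        exact notMem_conK_self hzv hy
      rw [mem_conK hyx hzv] at hy
      simp only [hf]
      split_ifs at hy ⊢ with h1
      · exact hy
      · exact hy
    have hfw : ∀ y ∈ conK K z v, f y ≠ v := by
      intro y hy
      simp only [hf]
      split_ifs with h1
      · exact hzv
      · exact h1
    have hfi : Set.InjOn f (conK K z v) := by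
      intro a ha b hb hab
      have hax : a ≠ z := by
        rintro rfl
        exact notMem_conK_self hzv ha
      have hbx : b ≠ z := by
        rintro rfl
        exact notMem_conK_self hzv hb
      simp only [hf] at hab
      split_ifs at hab with h1 h2 h2
      · rw [h1, h2]
      · exact absurd hab.symm hbx
      · exact absurd hab hax
      · exact hab
    refine hk1.map (w := v) f hfK hfw hfi hvK ?_
    intro y hy
    right
    refine ⟨hmin _ (hfK y hy), ?_⟩
    have hyz : y ≠ z := by
      rintro rfl
      exact notMem_conK_self hzv hy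
    by_cases hyv : y = v
    · have hfy : f y = z := by simp [hf, hyv]
      rw [hfy, hyv, vd_of_ne hzv, vd_self]
      have := cd_con_self R S hv hzv
      split_ifs at this <;> omega
    · have hfy : f y = y := by simp [hf, hyv]
      rw [hfy, vd_of_ne hyv, vd_of_ne hyv]
      have := cd_con R S hzS hyz hyv
      split_ifs at this <;> omega

theorem ih_all (n : ℕ) : IH V n := by
  classical
  induction n with
  | zero => intro R S X K v er ec h; omega
  | succ n hn =>
    intro R S X K v er ec hS hX hK hv he hx1 hk1
    rcases Nat.lt_succ_iff_lt_or_eq.1 hS with hS | hS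
    · exact hn R S X K v er ec hS hX hK hv he hx1 hk1
    by_cases h1 : ∃ x ∈ X, x ≠ v ∧ ∀ y ∈ X, vd R S v er x ≤ vd R S v er y
    · obtain ⟨x, hx, hxv, hmin⟩ := h1
      exact step_row hn R S X K v er ec hS hX hK hv he hx1 hk1 hx hxv hmin
    by_cases h2 : ∃ x ∈ K, x ≠ v ∧ ∀ y ∈ K, vd (fl R) S v ec x ≤ vd (fl R) S v ec y
    · obtain ⟨x, hx, hxv, hmin⟩ := h2
      exact (step_row hn (fl R) S K X v ec er hS hK hX hv (by omega) hk1 hx1 hx hxv hmin).fl
    have h1' : X.Nonempty → v ∈ X ∧ ∀ y ∈ X, vd R S v er v ≤ vd R S v er y := by
      intro hne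
      obtain ⟨x, hx, hm⟩ := Finset.exists_min_image X (vd R S v er) hne
      by_cases hxv : x = v
      · rw [← hxv]
        rw [hxv] at hx hm
        rw [hxv]
        exact ⟨hx, hm⟩
      · exact absurd ⟨x, hx, hxv, hm⟩ h1
    have h2' : K.Nonempty → v ∈ K ∧ ∀ y ∈ K, vd (fl R) S v ec v ≤ vd (fl R) S v ec y := by
      intro hne
      obtain ⟨x, hx, hm⟩ := Finset.exists_min_image K (vd (fl R) S v ec) hne
      by_cases hxv : x = v
      · rw [hxv] at hx hm
        exact ⟨hx, hm⟩
      · exact absurd ⟨x, hx, hxv, hm⟩ h2
    by_cases hKe : K.Nonempty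
    · obtain ⟨hvK, hminK⟩ := h2' hKe
      by_cases hXe : X.Nonempty
      · obtain ⟨hvX, hminX⟩ := h1' hXe
        rcases Nat.eq_zero_or_pos er with her | her
        · subst her
          exact step_mark hn R S X K v ec hS hX hK hv (by omega) hx1 hk1 hvK hminK
        · have hec : ec = 0 := by omega
          subst hec
          exact (step_mark hn (fl R) S K X v er hS hK hX hv (by omega) hk1 hx1 hvX hminX).fl
      · rw [Finset.not_nonempty_iff_eq_empty] at hXe
        subst hXe
        exact step_mark hn R S ∅ K v ec hS hX hK hv (by omega)
          (by intro t ht; simp only [Finset.filter_empty, Finset.card_empty]; omega) hk1 hvK hminK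
    · rw [Finset.not_nonempty_iff_eq_empty] at hKe
      subst hKe
      by_cases hXe : X.Nonempty
      · obtain ⟨hvX, hminX⟩ := h1' hXe
        exact (step_mark hn (fl R) S ∅ X v er hS hK hX hv (by omega)
          (by intro t ht; simp only [Finset.filter_empty, Finset.card_empty]; omega) hx1 hvX hminX).fl
      · rw [Finset.not_nonempty_iff_eq_empty] at hXe
        subst hXe
        exact ⟨[v], by simp, by simp, by simpa using hv, by simp, by simp, by simp⟩

/-- **Strict path lemma.**  Fewer than `t` members of `X` have at most `t` out-neighbours in `S`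
and fewer than `t` members of `K` have at most `t` in-neighbours in `S`, for all `t ≥ 1`.  Then
every `v ∈ S` lies on a path inside `S` from a vertex outside `K` to a vertex outside `X`. -/
theorem good_of_str (R : V → V → Prop) (S X K : Finset V) (v : V) (hX : X ⊆ S) (hK : K ⊆ S)
    (hv : v ∈ S) (hx : Str X (rd R S)) (hk : Str K (rd (fl R) S)) : Good R S X K v := by
  refine ih_all (S.card + 1) R S X K v 0 0 (Nat.lt_succ_self _) hX hK hv (by omega) ?_ ?_
  · exact hx.mono (fun y hy => by unfold vd; omega)
  · exact hk.mono (fun y hy => by unfold vd; omega)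

end Pool.Agent.NashP
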