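import Pool.Agent.NashP.Conn

/-!
# Common cycles of two vertices under condition (P)
-/

set_option autoImplicit false

namespace Pool.Agent.NashP

open Finset

variable {V : Type*} [DecidableEq V] [Fintype V]

omit [DecidableEq V] [Fintype V] in
/-- A path closed up by an arc is a cycle. -/
theorem cyc_of_pth {R : V → V → Prop} {a b : V} {l : List V} (h : Pth R a b l) (hab : a ≠ b)
    (hR : R b a) : IsCyc R l := by
  obtain ⟨h1, h2, h3, h4⟩ := h
  refine ⟨?_, h1, h2, ?_⟩
  · match l, h3, h4 with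
    | [], h3, _ => simp at h3
    | [c], h3, h4 =>
      simp only [List.head?_cons, Option.some.injEq] at h3
      simp only [List.getLast?_singleton, Option.some.injEq] at h4
      exact absurd (h3.symm.trans h4) hab
    | _ :: _ :: _, _, _ => simp
  · intro p hp q hq
    rw [h4] at hp
    rw [h3] at hq
    simp only [Option.mem_def, Option.some.injEq] at hp hq
    subst hp
    subst hq
    exact hR

/-- Adjacent vertices. -/
theorem cyc_adj {R : V → V → Prop} (h : PC R) {u v : V} (huv : u ≠ v) (hR : R v u) :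
    ∃ l : List V, IsCyc R l ∧ u ∈ l ∧ v ∈ l := by
  obtain ⟨l, hl, _⟩ := rch_all h u v
  exact ⟨l, cyc_of_pth hl huv hR, hl.head_mem, hl.last_mem⟩

omit [DecidableEq V] [Fintype V] in
theorem IsCyc.fl {R : V → V → Prop} {l : List V} (h : IsCyc (fl R) l) : IsCyc R l.reverse := by
  obtain ⟨h1, h2, h3, h4⟩ := h
  refine ⟨by simpa using h1, List.nodup_reverse.2 h2, ?_, ?_⟩
  · rw [List.isChain_reverse]
    exact h3
  · intro a ha b hb
    rw [List.getLast?_reverse] at ha
    rw [List.head?_reverse] at hb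
    exact h4 b hb a ha

omit [DecidableEq V] [Fintype V] in
theorem cyc_fl {R : V → V → Prop} {u v : V}
    (h : ∃ l : List V, IsCyc (fl R) l ∧ u ∈ l ∧ v ∈ l) :
    ∃ l : List V, IsCyc R l ∧ u ∈ l ∧ v ∈ l := by
  obtain ⟨l, h1, h2, h3⟩ := h
  exact ⟨l.reverse, h1.fl, List.mem_reverse.2 h2, List.mem_reverse.2 h3⟩

/-- The set of vertices reachable from `u` without `y`. -/
theorem reach_closed {R : V → V → Prop} (h : PC R) {u v y : V} (huy : u ≠ y) (hvy : v ≠ y)
    (hno : ¬ Rch R (fun z => z = y) u v) :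
    ∃ S : Finset V, u ∈ S ∧ v ∉ S ∧ y ∉ S ∧ 2 * S.card + 1 = Fintype.card V ∧
      (∀ x, rd R univ x ≤ S.card ↔ x ∈ S) ∧
      (∀ z, rd (fl R) univ z ≤ S.card ↔ (z ∉ S ∧ z ≠ y)) := by
  classical
  set S : Finset V := univ.filter (fun z => Rch R (fun z => z = y) u z) with hS
  have hm : ∀ z, z ∈ S ↔ Rch R (fun z => z = y) u z := by
    intro z
    rw [hS, Finset.mem_filter]
    simp
  have huS : u ∈ S := (hm u).2 (Rch.refl huy)
  have hvS : v ∉ S := fun hh => hno ((hm v).1 hh)
  have hyS : y ∉ S := by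
    intro hh
    obtain ⟨l, hl, hl2⟩ := (hm y).1 hh
    exact hl2 y hl.last_mem rfl
  obtain ⟨e1, e2, e3⟩ := closed_card h ⟨u, huS⟩ hyS (by
    intro a ha b hab
    by_cases hby : b = y
    · exact Or.inr hby
    · left
      rw [hm] at ha ⊢
      exact ha.tail hab hby) ⟨v, hvS, hvy⟩
  exact ⟨S, huS, hvS, hyS, e1, e2, e3⟩

theorem card_common {A B : Finset V} {u v : V} (huv : u ≠ v) (hA : ∀ y ∈ A, y ≠ u ∧ y ≠ v)
    (hB : ∀ y ∈ B, y ≠ u ∧ y ≠ v) : A.card + B.card + 2 ≤ (A ∩ B).card + Fintype.card V := by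
  have h1 : (A ∪ B) ⊆ (univ.erase u).erase v := by
    intro z hz
    rw [Finset.mem_erase, Finset.mem_erase]
    rcases Finset.mem_union.1 hz with h2 | h2
    · exact ⟨(hA z h2).2, (hA z h2).1, Finset.mem_univ _⟩
    · exact ⟨(hB z h2).2, (hB z h2).1, Finset.mem_univ _⟩
  have h2 := Finset.card_le_card h1
  rw [Finset.card_erase_of_mem (by
      rw [Finset.mem_erase]
      exact ⟨huv.symm, Finset.mem_univ _⟩),
    Finset.card_erase_of_mem (Finset.mem_univ _), Finset.card_univ] at h2
  have h3 := Finset.card_union_add_card_inter A B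
  have h4 : 1 < Fintype.card V := Fintype.one_lt_card_iff.2 ⟨u, v, huv⟩
  omega

/-- Mixed degree sum at least `n - 1`. -/
theorem cyc_mixed {R : V → V → Prop} (h : PC R) {u v : V} (huv : u ≠ v)
    (hd : Fintype.card V ≤ rd R univ v + rd (fl R) univ u + 1) :
    ∃ l : List V, IsCyc R l ∧ u ∈ l ∧ v ∈ l := by
  classical
  by_cases h1 : R v u
  · exact cyc_adj h huv h1
  by_cases h2 : R u v
  · obtain ⟨l, e1, e2, e3⟩ := cyc_adj h huv.symm h2
    exact ⟨l, e1, e3, e2⟩
  set A : Finset V := univ.filter (fun y => y ≠ v ∧ R v y) with hA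
  set B : Finset V := univ.filter (fun y => y ≠ u ∧ fl R u y) with hB
  have hAc : A.card = rd R univ v := by
    unfold rd
    rw [hA]
  have hBc : B.card = rd (fl R) univ u := by
    unfold rd
    rw [hB]
  have hAm : ∀ y, y ∈ A → y ≠ v ∧ R v y := by
    intro y hy
    exact (Finset.mem_filter.1 hy).2
  have hBm : ∀ y, y ∈ B → y ≠ u ∧ R y u := by
    intro y hy
    exact (Finset.mem_filter.1 hy).2
  have hc := card_common (A := A) (B := B) huv
    (fun y hy => ⟨by rintro rfl; exact h1 (hAm _ hy).2, (hAm y hy).1⟩)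
    (fun y hy => ⟨(hBm y hy).1, by rintro rfl; exact h1 (hBm _ hy).2⟩)
  have hclose : ∀ y, y ∈ A ∩ B → Rch R (fun z => z = y) u v →
      ∃ l : List V, IsCyc R l ∧ u ∈ l ∧ v ∈ l := by
    intro y hy hr
    rw [Finset.mem_inter] at hy
    obtain ⟨l, hl, hly⟩ := hr
    have h3 : Pth R u y (l ++ [y]) := by
      refine hl.append (Pth.refl y) (hAm y hy.1).2 ?_
      intro z hz hz'
      rw [List.mem_singleton] at hz'
      exact hly z hz hz'
    refine ⟨l ++ [y], cyc_of_pth h3 (hBm y hy.2).1.symm (hBm y hy.2).2, h3.head_mem, ?_⟩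
    rw [List.mem_append]
    exact Or.inl hl.last_mem
  have hne : (A ∩ B).Nonempty := by
    rw [← Finset.card_pos]
    omega
  obtain ⟨y, hy⟩ := hne
  by_cases hr : Rch R (fun z => z = y) u v
  · exact hclose y hy hr
  have hy' := Finset.mem_inter.1 hy
  obtain ⟨S, huS, hvS, hyS, e1, e2, e3⟩ := reach_closed h (hBm y hy'.2).1.symm
    (hAm y hy'.1).1.symm hr
  have hv1 : S.card < rd R univ v := by
    by_contra hcc
    exact hvS ((e2 v).1 (by omega))
  have hu1 : S.card < rd (fl R) univ u := by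
    by_contra hcc
    exact ((e3 u).1 (by omega)).1 huS
  have h2c : 1 < (A ∩ B).card := by omega
  obtain ⟨y', hy2, hne⟩ := Finset.exists_mem_ne h2c y
  by_cases hr' : Rch R (fun z => z = y') u v
  · exact hclose y' hy2 hr'
  have hy2' := Finset.mem_inter.1 hy2
  obtain ⟨S', huS', hvS', hyS', e1', e2', e3'⟩ := reach_closed h (hBm y' hy2'.2).1.symm
    (hAm y' hy2'.1).1.symm hr'
  have hcc : S'.card = S.card := by omega
  rw [hcc] at e2' e3'
  have h5 : y' ∉ S := by
    intro hh
    exact hyS' ((e2' y').1 ((e2 y').2 hh))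
  have h6 := (e3' y').1 ((e3 y').2 ⟨h5, hne⟩)
  exact absurd rfl h6.2

/-- Sum of the in-degrees at least `n`. -/
theorem cyc_in {R : V → V → Prop} (h : PC R) {u v : V} (huv : u ≠ v)
    (hd : Fintype.card V ≤ rd (fl R) univ u + rd (fl R) univ v) :
    ∃ l : List V, IsCyc R l ∧ u ∈ l ∧ v ∈ l := by
  classical
  by_cases h1 : R v u
  · exact cyc_adj h huv h1
  by_cases h2 : R u v
  · obtain ⟨l, e1, e2, e3⟩ := cyc_adj h huv.symm h2
    exact ⟨l, e1, e3, e2⟩
  set A : Finset V := univ.filter (fun y => y ≠ u ∧ fl R u y) with hA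
  set B : Finset V := univ.filter (fun y => y ≠ v ∧ fl R v y) with hB
  have hAc : A.card = rd (fl R) univ u := by
    unfold rd
    rw [hA]
  have hBc : B.card = rd (fl R) univ v := by
    unfold rd
    rw [hB]
  have hAm : ∀ y, y ∈ A → y ≠ u ∧ R y u := by
    intro y hy
    exact (Finset.mem_filter.1 hy).2
  have hBm : ∀ y, y ∈ B → y ≠ v ∧ R y v := by
    intro y hy
    exact (Finset.mem_filter.1 hy).2
  have hc := card_common (A := A) (B := B) huv
    (fun y hy => ⟨(hAm y hy).1, by rintro rfl; exact h1 (hAm _ hy).2⟩)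
    (fun y hy => ⟨by rintro rfl; exact h2 (hBm _ hy).2, (hBm y hy).1⟩)
  have h2c : 1 < (A ∩ B).card := by omega
  have hsep : NoSep R u v (fun z => R z u ∧ R z v) := by
    intro s
    by_contra hno
    have hno' : ∀ a, (a = u ∨ a = v) → ∀ t, R t u ∧ R t v → ¬ Rch R (fun z => z = s) a t := by
      intro a ha t ht hr
      obtain ⟨l, hl, hls⟩ := hr
      exact hno ⟨a, ha, t, ht, l, hl, fun hs => hls s hs rfl⟩
    set S : Finset V := univ.filter (fun z => Rch R (fun z => z = s) u z ∨
      Rch R (fun z => z = s) v z) with hS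
    have hm : ∀ z, z ∈ S ↔ (Rch R (fun z => z = s) u z ∨ Rch R (fun z => z = s) v z) := by
      intro z
      rw [hS, Finset.mem_filter]
      simp
    have hsS : s ∉ S := by
      intro hh
      rcases (hm s).1 hh with ⟨l, hl, hl2⟩ | ⟨l, hl, hl2⟩
      · exact hl2 s hl.last_mem rfl
      · exact hl2 s hl.last_mem rfl
    have hu : u ∈ S ∨ u = s := by
      by_cases hus : u = s
      · exact Or.inr hus
      · exact Or.inl ((hm u).2 (Or.inl (Rch.refl hus)))
    have hv : v ∈ S ∨ v = s := by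
      by_cases hvs : v = s
      · exact Or.inr hvs
      · exact Or.inl ((hm v).2 (Or.inr (Rch.refl hvs)))
    have hSne : S.Nonempty := by
      rcases hu with hu | hu
      · exact ⟨u, hu⟩
      · rcases hv with hv | hv
        · exact ⟨v, hv⟩
        · exact absurd (hu.trans hv.symm) huv
    have hST : ∀ z ∈ S, ¬ (R z u ∧ R z v) := by
      intro z hz hT
      rcases (hm z).1 hz with hr | hr
      · exact hno' u (Or.inl rfl) z hT hr
      · exact hno' v (Or.inr rfl) z hT hr
    obtain ⟨t, ht, hts⟩ := Finset.exists_mem_ne h2c s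
    have ht' := Finset.mem_inter.1 ht
    have htS : t ∉ S := fun hh => hST t hh ⟨(hAm t ht'.1).2, (hBm t ht'.2).2⟩
    obtain ⟨x, hxS, hx⟩ := closed_full h hSne hsS (by
      intro a ha b hab
      by_cases hbs : b = s
      · exact Or.inr hbs
      · left
        rw [hm] at ha ⊢
        rcases ha with ha | ha
        · exact Or.inl (ha.tail hab hbs)
        · exact Or.inr (ha.tail hab hbs)) ⟨t, htS, hts⟩
    by_cases hxu : x = u
    · subst hxu
      exact h2 (hx v hv huv.symm)
    by_cases hxv : x = v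
    · subst hxv
      exact h1 (hx u hu huv)
    exact hST x hxS ⟨hx u hu (Ne.symm hxu), hx v hv (Ne.symm hxv)⟩
  obtain ⟨e, f, P, Q, he, hf, hP, hQ, hPQ⟩ := two_paths huv hsep
  have h3 := hP.append hQ he.2 hPQ
  have huf : u ≠ f := by
    rintro rfl
    exact hPQ _ hP.head_mem hQ.last_mem
  refine ⟨P ++ Q, cyc_of_pth h3 huf hf.1, ?_, ?_⟩
  · rw [List.mem_append]
    exact Or.inl hP.head_mem
  · rw [List.mem_append]
    exact Or.inr hQ.head_mem

/-- The row of `x` and the row inside the complement of `u`. -/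
theorem rd_compl {R : V → V → Prop} {u y : V} (hyu : y ≠ u) (hR : ¬ R y u) :
    rd R (univ.erase u) y = rd R univ y := by
  have := rd_erase R univ (Finset.mem_univ u) hyu
  rw [if_neg hR] at this
  omega

theorem hub_bound {R : V → V → Prop} (h : PC R) {u : V}
    (hin : Fintype.card V ≤ 2 * rd (fl R) univ u) :
    ∀ t, 1 ≤ t →
      open Classical in
      ((univ.erase u).filter (fun y => ¬ R y u ∧ rd R (univ.erase u) y ≤ t)).card < t := by
  classical
  intro t ht
  by_cases h1 : 2 * t + 1 < Fintype.card V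
  · refine lt_of_le_of_lt (Finset.card_le_card ?_) (h.out t ht h1)
    intro y hy
    rw [Finset.mem_filter, Finset.mem_erase] at hy
    rw [Finset.mem_filter]
    refine ⟨Finset.mem_univ _, ?_⟩
    rw [← rd_compl hy.1.1 hy.2.1]
    exact hy.2.2
  · have h2 : ((univ.erase u).filter (fun y => ¬ R y u ∧ rd R (univ.erase u) y ≤ t)).card +
        rd (fl R) univ u ≤ (univ.erase u).card := by
      unfold rd
      rw [← Finset.card_union_of_disjoint]
      · apply Finset.card_le_card
        intro z hz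
        rw [Finset.mem_union, Finset.mem_filter, Finset.mem_filter] at hz
        rcases hz with hz | hz
        · exact hz.1
        · rw [Finset.mem_erase]
          exact ⟨hz.2.1, Finset.mem_univ _⟩
      · rw [Finset.disjoint_left]
        intro z hz hz'
        rw [Finset.mem_filter] at hz hz'
        exact hz.2.1 hz'.2.2
    rw [Finset.card_erase_of_mem (Finset.mem_univ _), Finset.card_univ] at h2
    omega

/-- One of the two vertices has both semidegrees at least `n / 2`. -/
theorem cyc_big {R : V → V → Prop} (h : PC R) {u v : V} (huv : u ≠ v)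
    (hin : Fintype.card V ≤ 2 * rd (fl R) univ u) (hout : Fintype.card V ≤ 2 * rd R univ u) :
    ∃ l : List V, IsCyc R l ∧ u ∈ l ∧ v ∈ l := by
  classical
  obtain ⟨l, h1, h2, h3, _⟩ := cyc_of_hub R (univ.erase u) u v (Finset.notMem_erase _ _)
    (Finset.mem_erase.2 ⟨huv.symm, Finset.mem_univ _⟩)
    (by
      intro t ht
      exact hub_bound h hin t ht)
    (by
      intro t ht
      exact hub_bound h.fl (u := u) hout t ht)
  exact ⟨l, h1, h2, h3⟩

/-- The row degree counted by another finite set. -/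
theorem rd_card {R : V → V → Prop} {x : V} {α : Type*} (s : Finset α) (f : α → V)
    (hi : Set.InjOn f s) (hm : ∀ a ∈ s, f a ≠ x ∧ R x (f a))
    (hs : ∀ y, y ≠ x → R x y → ∃ a ∈ s, f a = y) : rd R univ x = s.card := by
  classical
  rw [← Finset.card_image_of_injOn hi]
  unfold rd
  congr 1
  ext y
  rw [Finset.mem_filter, Finset.mem_image]
  constructor
  · rintro ⟨_, h1, h2⟩
    exact hs y h1 h2
  · rintro ⟨a, h1, rfl⟩
    exact ⟨Finset.mem_univ _, hm a h1⟩

/-- **Common cycles under (P).** -/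
theorem cyc_pair {R : V → V → Prop} (h : PC R) {u v : V} (huv : u ≠ v)
    (hd : (Fintype.card V ≤ 2 * rd (fl R) univ u ∧ Fintype.card V ≤ 2 * rd R univ u) ∨
      (Fintype.card V ≤ 2 * rd (fl R) univ v ∧ Fintype.card V ≤ 2 * rd R univ v) ∨
      Fintype.card V ≤ rd R univ u + rd R univ v ∨
      Fintype.card V ≤ rd (fl R) univ u + rd (fl R) univ v ∨
      Fintype.card V ≤ rd R univ u + rd (fl R) univ v + 1 ∨
      Fintype.card V ≤ rd R univ v + rd (fl R) univ u + 1 ∨ R u v ∨ R v u) :
    ∃ l : List V, IsCyc R l ∧ u ∈ l ∧ v ∈ l := by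
  have hsw : (∃ l : List V, IsCyc R l ∧ v ∈ l ∧ u ∈ l) →
      ∃ l : List V, IsCyc R l ∧ u ∈ l ∧ v ∈ l := by
    rintro ⟨l, e1, e2, e3⟩
    exact ⟨l, e1, e3, e2⟩
  rcases hd with hd | hd | hd | hd | hd | hd | hd | hd
  · exact cyc_big h huv hd.1 hd.2
  · exact hsw (cyc_big h huv.symm hd.1 hd.2)
  · exact cyc_fl (cyc_in h.fl huv hd)
  · exact cyc_in h huv hd
  · exact hsw (cyc_mixed h huv.symm hd)
  · exact cyc_mixed h huv hd
  · exact hsw (cyc_adj h huv.symm hd)
  · exact cyc_adj h huv hd

end Pool.Agent.NashP
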